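import Mathlib
import Pool.Agent.V11117.FRDef
import Pool.Agent.V11117.FRTree2

/-!
In a tree, proper fractional revival between two vertices forces them to be cospectral.
-/

namespace Pool.Agent.Results.MP_33c96f_co.TreesCospectral

open Matrix Pool.Agent.V11117 Pool.Agent.V11117.FRDef

/-- Proper fractional revival between `a` and `b` in `X`: for some time `τ > 0`,
`exp(iτA) e_a = α e_a + β e_b` with `α, β` both nonzero. -/
def ProperRevival {V : Type} [Fintype V] [DecidableEq V] (X : SimpleGraph V) [DecidableRel X.Adj]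
    (a b : V) : Prop :=
  ∃ τ : ℝ, 0 < τ ∧ ∃ α β : ℂ, α ≠ 0 ∧ β ≠ 0 ∧
    walk X τ *ᵥ (Pi.single a 1) = α • (Pi.single a 1 : V → ℂ) + β • (Pi.single b 1 : V → ℂ)

/-- `a` and `b` are cospectral: the vertex-deleted subgraphs have equal characteristic
polynomials. -/
def Cospectral {V : Type} [Fintype V] [DecidableEq V] (X : SimpleGraph V) [DecidableRel X.Adj]
    (a b : V) : Prop :=
  ((X.induce ({a}ᶜ : Set V)).adjMatrix ℝ).charpoly =
    ((X.induce ({b}ᶜ : Set V)).adjMatrix ℝ).charpoly

lemma charpoly_induce {V : Type} [Fintype V] [DecidableEq V] (X : SimpleGraph V)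
    [DecidableRel X.Adj] (a : V) :
    ((X.induce ({a}ᶜ : Set V)).adjMatrix ℝ).charpoly = FRTree.delPoly X a := by
  rw [FRTree.delPoly]
  let e : {x // x ≠ a} ≃ ({a}ᶜ : Set V) := Equiv.subtypeEquivRight (by simp)
  rw [← Matrix.charpoly_reindex e]
  congr 1

theorem result {V : Type} [Fintype V] [DecidableEq V] (T : SimpleGraph V) [DecidableRel T.Adj]
    (hT : T.IsTree) (a b : V) (hab : a ≠ b) (h : ProperRevival T a b) : Cospectral T a b := by
  obtain ⟨τ, hτ, α, β, hα, hβ, hrev⟩ := h
  obtain ⟨U, l, hE⟩ := FRTree.exists_eig (X := T)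
  rw [Cospectral, charpoly_induce, charpoly_induce]
  exact FRTree.delPoly_eq hE (fun r => FRTree.sq_eq hT hE hτ hab hβ hrev r)

end Pool.Agent.Results.MP_33c96f_co.TreesCospectral
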